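import Pool.Agent.helper7.EP.SpecH

set_option autoImplicit false

open Finset PowerSeries UpperHalfPlane ModularForm
open scoped MatrixGroups Real Manifold

noncomputable section

namespace Pool.Agent.EP

/-- The eighth power of the eta function. -/
def ETA_f (τ : ℍ) : ℂ := ModularForm.eta τ ^ 8

/-- The exponent of the character. -/
def ETA_psi (g : SL(2, ℤ)) : ZMod 3 :=
  (((g 0 0 : ℤ) : ZMod 3) + ((g 1 1 : ℤ) : ZMod 3)) * ((g 1 0 : ℤ) : ZMod 3) -
    ((g 0 1 : ℤ) : ZMod 3) * ((g 1 1 : ℤ) : ZMod 3) * (((g 1 0 : ℤ) : ZMod 3) ^ 2 - 1)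

/-- The character. -/
def ETA_chi (t : ZMod 3) : ℂ := Complex.exp (2 * π * Complex.I / 3) ^ t.val

theorem ETA_zeta : Complex.exp (2 * π * Complex.I / 3) ^ 3 = 1 := by
  rw [← Complex.exp_nat_mul]
  have : ((3 : ℕ) : ℂ) * (2 * π * Complex.I / 3) = 2 * π * Complex.I := by
    push_cast
    ring
  rw [this, Complex.exp_two_pi_mul_I]

theorem ETA_chi_add (s t : ZMod 3) : ETA_chi (s + t) = ETA_chi s * ETA_chi t := by
  unfold ETA_chi
  have h := ETA_zeta
  have h4 : Complex.exp (2 * π * Complex.I / 3) ^ 4 = Complex.exp (2 * π * Complex.I / 3) := by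
    rw [pow_succ, h, one_mul]
  rw [← pow_add, ZMod.val_add]
  generalize Complex.exp (2 * π * Complex.I / 3) = w at h h4
  have h1 := Nat.div_add_mod (s.val + t.val) 3
  conv_rhs => rw [← h1, pow_add, pow_mul, h, one_pow, one_mul]

theorem ETA_chi_zero : ETA_chi 0 = 1 := by
  unfold ETA_chi
  simp

theorem ETA_chi_one : ETA_chi 1 = Complex.exp (2 * π * Complex.I / 3) := by
  unfold ETA_chi
  rw [show (1 : ZMod 3).val = 1 from rfl, pow_one]

theorem ETA_det (g : SL(2, ℤ)) : ((g 0 0 : ℤ) : ZMod 3) * ((g 1 1 : ℤ) : ZMod 3) -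
    ((g 0 1 : ℤ) : ZMod 3) * ((g 1 0 : ℤ) : ZMod 3) = 1 := by
  have h := g.2
  rw [Matrix.det_fin_two] at h
  have h2 := congrArg (Int.cast : ℤ → ZMod 3) h
  push_cast at h2
  exact h2

theorem ETA_dec1 : ∀ a b c d : ZMod 3, a * d - b * c = 1 →
    (b + -c) * d - -a * -c * (d ^ 2 - 1) = (a + d) * c - b * d * (c ^ 2 - 1) := by
  decide

theorem ETA_dec2 : ∀ a b c d : ZMod 3, a * d - b * c = 1 →
    (a + (c + d)) * c - (a + b) * (c + d) * (c ^ 2 - 1) =
      (a + d) * c - b * d * (c ^ 2 - 1) + 1 := by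
  decide

theorem ETA_psi_S (g : SL(2, ℤ)) : ETA_psi (g * ModularGroup.S) = ETA_psi g + 0 := by
  have h00 : (g * ModularGroup.S) 0 0 = g 0 1 := by
    rw [Matrix.SpecialLinearGroup.coe_mul, ModularGroup.coe_S, Matrix.mul_apply, Fin.sum_univ_two]
    simp
  have h01 : (g * ModularGroup.S) 0 1 = -g 0 0 := by
    rw [Matrix.SpecialLinearGroup.coe_mul, ModularGroup.coe_S, Matrix.mul_apply, Fin.sum_univ_two]
    simp
  have h10 : (g * ModularGroup.S) 1 0 = g 1 1 := by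
    rw [Matrix.SpecialLinearGroup.coe_mul, ModularGroup.coe_S, Matrix.mul_apply, Fin.sum_univ_two]
    simp
  have h11 : (g * ModularGroup.S) 1 1 = -g 1 0 := by
    rw [Matrix.SpecialLinearGroup.coe_mul, ModularGroup.coe_S, Matrix.mul_apply, Fin.sum_univ_two]
    simp
  unfold ETA_psi
  rw [h00, h01, h10, h11, add_zero]
  push_cast
  exact ETA_dec1 _ _ _ _ (ETA_det g)

theorem ETA_psi_T (g : SL(2, ℤ)) : ETA_psi (g * ModularGroup.T) = ETA_psi g + 1 := by
  have h00 : (g * ModularGroup.T) 0 0 = g 0 0 := by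
    rw [Matrix.SpecialLinearGroup.coe_mul, ModularGroup.coe_T, Matrix.mul_apply, Fin.sum_univ_two]
    simp
  have h01 : (g * ModularGroup.T) 0 1 = g 0 0 + g 0 1 := by
    rw [Matrix.SpecialLinearGroup.coe_mul, ModularGroup.coe_T, Matrix.mul_apply, Fin.sum_univ_two]
    simp
  have h10 : (g * ModularGroup.T) 1 0 = g 1 0 := by
    rw [Matrix.SpecialLinearGroup.coe_mul, ModularGroup.coe_T, Matrix.mul_apply, Fin.sum_univ_two]
    simp
  have h11 : (g * ModularGroup.T) 1 1 = g 1 0 + g 1 1 := by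
    rw [Matrix.SpecialLinearGroup.coe_mul, ModularGroup.coe_T, Matrix.mul_apply, Fin.sum_univ_two]
    simp
  unfold ETA_psi
  rw [h00, h01, h10, h11]
  push_cast
  exact ETA_dec2 _ _ _ _ (ETA_det g)

theorem ETA_sqrt {z : ℂ} (hz : z ≠ 0) : Complex.sqrt z ^ 8 = z ^ 4 := by
  rw [sqrt_eq_exp hz, ← Complex.exp_nat_mul]
  rw [show ((8 : ℕ) : ℂ) * (Complex.log z / 2) = (4 : ℕ) * Complex.log z by push_cast; ring,
    Complex.exp_nat_mul, Complex.exp_log hz]

set_option backward.isDefEq.respectTransparency.types false in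
theorem ETA_f_S : (ETA_f ∣[(4 : ℤ)] ModularGroup.S) = ETA_chi 0 • ETA_f := by
  rw [ETA_chi_zero, one_smul]
  ext z
  suffices ModularForm.eta (-(z : ℂ)⁻¹) ^ 8 * ((z : ℂ) ^ 4)⁻¹ = ModularForm.eta z ^ 8 by
    rw [SL_slash_apply, UpperHalfPlane.modular_S_smul]
    simpa [denom, ModularGroup.S, ETA_f]
  have he : ModularForm.eta (-(z : ℂ)⁻¹) =
      (Complex.sqrt Complex.I)⁻¹ * (Complex.sqrt z * ModularForm.eta z) := by
    simpa [neg_div] using ModularForm.eta_comp_eq_csqrt_I_inv z.2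
  have hI : Complex.sqrt Complex.I ^ 8 = 1 := by
    rw [ETA_sqrt Complex.I_ne_zero, Complex.I_pow_four]
  rw [he, mul_pow, mul_pow, inv_pow, hI, ETA_sqrt (ne_zero z)]
  field_simp [z.ne_zero]

set_option backward.isDefEq.respectTransparency.types false in
theorem ETA_f_T (hETT : ETT_stmt) : (ETA_f ∣[(4 : ℤ)] ModularGroup.T) = ETA_chi 1 • ETA_f := by
  ext z
  rw [SL_slash_apply, denom, modular_T_smul, ModularGroup.T]
  have h := hETT 1 z
  rw [ETA_chi_one]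
  have h2 : (2 * (π : ℂ) * Complex.I * ((1 : ℤ) : ℂ) / 3) = 2 * π * Complex.I / 3 := by
    push_cast
    ring
  rw [h2] at h
  simpa [add_comm, ETA_f] using h

theorem ETA_inv {y : SL(2, ℤ)} {e : ZMod 3} (hf : (ETA_f ∣[(4 : ℤ)] y) = ETA_chi e • ETA_f) :
    (ETA_f ∣[(4 : ℤ)] y⁻¹) = ETA_chi (-e) • ETA_f := by
  have h1 : ((ETA_f ∣[(4 : ℤ)] y) ∣[(4 : ℤ)] y⁻¹) = ETA_f := by
    rw [← SlashAction.slash_mul, mul_inv_cancel, SlashAction.slash_one]
  rw [hf, ModularForm.SL_smul_slash] at h1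
  conv_rhs => rw [← h1]
  rw [smul_smul, ← ETA_chi_add, neg_add_cancel, ETA_chi_zero, one_smul]

theorem ETA_main (hETT : ETT_stmt) (g : SL(2, ℤ)) :
    (ETA_f ∣[(4 : ℤ)] g) = ETA_chi (ETA_psi g) • ETA_f := by
  have hg : g ∈ Subgroup.closure ({ModularGroup.S, ModularGroup.T} : Set SL(2, ℤ)) := by
    rw [SpecialLinearGroup.SL2Z_generators]
    trivial
  have hy : ∀ y ∈ ({ModularGroup.S, ModularGroup.T} : Set SL(2, ℤ)), ∃ e : ZMod 3,
      (ETA_f ∣[(4 : ℤ)] y) = ETA_chi e • ETA_f ∧ ∀ g, ETA_psi (g * y) = ETA_psi g + e := by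
    intro y hy
    rcases hy with rfl | hy
    · exact ⟨0, ETA_f_S, ETA_psi_S⟩
    · rw [Set.mem_singleton_iff] at hy
      subst hy
      exact ⟨1, ETA_f_T hETT, ETA_psi_T⟩
  induction hg using Subgroup.closure_induction_right with
  | one =>
    rw [SlashAction.slash_one]
    have : ETA_psi 1 = 0 := by
      unfold ETA_psi
      simp
    rw [this, ETA_chi_zero, one_smul]
  | mul_right x hx y hys ih =>
    obtain ⟨e, he1, he2⟩ := hy y hys
    rw [SlashAction.slash_mul, ih, ModularForm.SL_smul_slash, he1, he2, smul_smul, ETA_chi_add]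
  | mul_inv_cancel x hx y hys ih =>
    obtain ⟨e, he1, he2⟩ := hy y hys
    have h2 := he2 (x * y⁻¹)
    rw [inv_mul_cancel_right] at h2
    rw [SlashAction.slash_mul, ih, ModularForm.SL_smul_slash, ETA_inv he1, smul_smul,
      ← ETA_chi_add, h2, add_neg_cancel_right]

theorem ETA (hETT : ETT_stmt) : ETA_stmt := by
  intro α β γ δ hdet hα hδ z hz
  let g : SL(2, ℤ) := ⟨!![α, β; γ, δ], by rw [Matrix.det_fin_two_of]; exact hdet⟩
  let τ : ℍ := ⟨z, hz⟩
  have h := congrFun (ETA_main hETT g) τ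
  have hpsi : ETA_psi g = 0 := by
    unfold ETA_psi
    have h1 : ((g 0 0 : ℤ) : ZMod 3) = 0 := (ZMod.intCast_zmod_eq_zero_iff_dvd _ 3).mpr hα
    have h2 : ((g 1 1 : ℤ) : ZMod 3) = 0 := (ZMod.intCast_zmod_eq_zero_iff_dvd _ 3).mpr hδ
    rw [h1, h2]
    ring
  rw [hpsi, ETA_chi_zero, one_smul, SL_slash_apply] at h
  have h2 : ((g • τ : ℍ) : ℂ) = (α * z + β) / (γ * z + δ) := by
    rw [UpperHalfPlane.coe_specialLinearGroup_apply]
    simp [g, τ]
  have h3 : denom (g : GL (Fin 2) ℝ) τ = γ * z + δ := by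
    rw [ModularGroup.denom_apply]
    simp [g, τ]
  have hne : (γ * z + δ : ℂ) ≠ 0 := by
    rw [← h3]
    exact denom_ne_zero _ _
  rw [h3] at h
  unfold ETA_f at h
  rw [h2] at h
  have h4 : ((γ * z + δ : ℂ)) ^ (-(4 : ℤ)) = ((γ * z + δ : ℂ) ^ 4)⁻¹ := by
    rw [zpow_neg]
    norm_cast
  rw [h4] at h
  have h5 : ((γ * z + δ : ℂ) ^ 4) ≠ 0 := pow_ne_zero _ hne
  rw [mul_inv_eq_iff_eq_mul₀ h5] at h
  rw [h, mul_comm]

end Pool.Agent.EP
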