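import Pool.Agent.helper7.EP.SpecH

set_option autoImplicit false

open Finset PowerSeries UpperHalfPlane ModularForm
open scoped MatrixGroups Real Manifold

noncomputable section

namespace Pool.Agent.EP

/-- A function on the upper half plane given by a function on the complex plane. -/
def HM_fun (h : ℂ → ℂ) (τ : ℍ) : ℂ := h τ

set_option backward.isDefEq.respectTransparency.types false in
theorem HM_T (k : ℕ) (h : ℂ → ℂ) (hT : ∀ z : ℂ, 0 < z.im → h (z + 1) = h z) :
    (HM_fun h ∣[(k : ℤ)] ModularGroup.T) = HM_fun h := by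
  ext z
  rw [SL_slash_apply, denom, modular_T_smul, ModularGroup.T]
  simp only [HM_fun]
  have h1 := hT z z.im_pos
  simpa [add_comm] using h1

set_option backward.isDefEq.respectTransparency.types false in
theorem HM_S (k : ℕ) (h : ℂ → ℂ) (hS : ∀ z : ℂ, 0 < z.im → h (-1 / z) = z ^ k * h z) :
    (HM_fun h ∣[(k : ℤ)] ModularGroup.S) = HM_fun h := by
  ext z
  have h1 := hS z z.im_pos
  rw [SL_slash_apply, UpperHalfPlane.modular_S_smul]
  have hz : (z : ℂ) ^ k ≠ 0 := pow_ne_zero _ (ne_zero z)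
  have h2 : h (-(z : ℂ))⁻¹ = (z : ℂ) ^ k * h z := by
    rw [← h1]; congr 1; rw [neg_div, one_div, inv_neg]
  simp only [HM_fun]
  have h3 : denom (ModularGroup.S : GL (Fin 2) ℝ) z = z := by simp [denom, ModularGroup.S]
  rw [h3, zpow_neg, zpow_natCast]
  change h (-(z : ℂ))⁻¹ * ((z : ℂ) ^ k)⁻¹ = _
  rw [h2]
  field_simp

theorem HM_slash (k : ℕ) (h : ℂ → ℂ) (hT : ∀ z : ℂ, 0 < z.im → h (z + 1) = h z)
    (hS : ∀ z : ℂ, 0 < z.im → h (-1 / z) = z ^ k * h z) (γ : SL(2, ℤ)) :
    (HM_fun h ∣[(k : ℤ)] γ) = HM_fun h :=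
  SlashInvariantForm.slash_action_generators_SL2Z (HM_S k h hS) (HM_T k h hT) γ

theorem HM_mdiff (h : ℂ → ℂ) (hd : DifferentiableOn ℂ h {z : ℂ | 0 < z.im}) :
    MDiff (HM_fun h) := by
  rw [UpperHalfPlane.mdifferentiable_iff]
  refine hd.congr fun z hz => ?_
  simp [HM_fun, ofComplex_apply_of_im_pos hz]

/-- The modular form. -/
def HM_form (k : ℕ) (h : ℂ → ℂ) (a : ℕ → ℂ) (hT : ∀ z : ℂ, 0 < z.im → h (z + 1) = h z)
    (hS : ∀ z : ℂ, 0 < z.im → h (-1 / z) = z ^ k * h z)
    (hd : DifferentiableOn ℂ h {z : ℂ | 0 < z.im})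
    (hq : ∀ z : ℂ, 0 < z.im → HasSum (fun n => a n * Function.Periodic.qParam 1 z ^ n) (h z)) :
    ModularForm 𝒮ℒ (k : ℤ) where
  toFun := HM_fun h
  slash_action_eq' := by
    rintro _ ⟨γ, rfl⟩
    exact HM_slash k h hT hS γ
  holo' := HM_mdiff h hd
  bdd_at_cusps' {c} hc := by
    rw [Subgroup.IsArithmetic.isCusp_iff_isCusp_SL2Z] at hc
    rw [OnePoint.isBoundedAt_iff_forall_SL2Z hc]
    intro γ _
    rw [HM_slash k h hT hS γ]
    exact isBoundedAtImInfty_of_hasSum_qExpansion one_pos (fun τ => hq τ τ.im_pos)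

theorem HM_diff (l m : ℕ) (hl : 0 < l) : DifferentiableOn ℂ (Hf l m) {z : ℂ | 0 < z.im} := by
  have hl' : (0 : ℝ) < l := by exact_mod_cast hl
  have hlc : (l : ℂ) ≠ 0 := by exact_mod_cast hl.ne'
  have him : ∀ (z : ℂ) (b : ℕ), 0 < z.im → 0 < ((z + 24 * (b : ℂ)) / l).im := by
    intro z b hz
    have : ((z + 24 * (b : ℂ)) / (l : ℂ)).im = z.im / l := by
      rw [Complex.div_natCast_im]
      simp
    rw [this]
    positivity
  have him2 : ∀ z : ℂ, 0 < z.im → 0 < ((l : ℂ) * z).im := by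
    intro z hz
    have : ((l : ℂ) * z).im = l * z.im := by simp
    rw [this]
    positivity
  intro z hz
  have hz' : 0 < z.im := hz
  have h0 : DifferentiableAt ℂ ModularForm.eta z :=
    ModularForm.differentiableAt_eta_of_mem_upperHalfPlaneSet hz'
  have h1 : ∀ b : ℕ, DifferentiableAt ℂ (fun z : ℂ => ModularForm.eta ((z + 24 * (b : ℂ)) / l)) z := by
    intro b
    have h2 : DifferentiableAt ℂ ModularForm.eta ((z + 24 * (b : ℂ)) / l) :=
      ModularForm.differentiableAt_eta_of_mem_upperHalfPlaneSet (him z b hz')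
    exact DifferentiableAt.comp (g := ModularForm.eta)
      (f := fun z : ℂ => (z + 24 * (b : ℂ)) / l) z h2 (by fun_prop)
  have h2 : DifferentiableAt ℂ (fun z : ℂ => ModularForm.eta ((l : ℂ) * z)) z := by
    have h3 : DifferentiableAt ℂ ModularForm.eta ((l : ℂ) * z) :=
      ModularForm.differentiableAt_eta_of_mem_upperHalfPlaneSet (him2 z hz')
    exact DifferentiableAt.comp (g := ModularForm.eta)
      (f := fun z : ℂ => (l : ℂ) * z) z h3 (by fun_prop)
  apply DifferentiableAt.differentiableWithinAt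
  unfold Hf
  refine DifferentiableAt.add (DifferentiableAt.const_mul (DifferentiableAt.fun_sum fun b _ => ?_) _)
    ?_
  · refine DifferentiableAt.fun_pow (DifferentiableAt.fun_div (h0.fun_pow _) ((h1 b).fun_pow _) ?_) _
    exact pow_ne_zero _ (ModularForm.eta_ne_zero (him z b hz'))
  · refine DifferentiableAt.fun_pow (DifferentiableAt.fun_div (h0.fun_pow _) (h2.fun_pow _) ?_) _
    exact pow_ne_zero _ (ModularForm.eta_ne_zero (him2 z hz'))

theorem HM (hHT : HT_stmt) (hHS : HS_stmt) (hHQ : HQ_stmt) : HM_stmt := by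
  intro l m hl hl5
  have hq : ∀ z : ℂ, 0 < z.im → HasSum (fun n => ((PowerSeries.coeff n (HH l m) : ℤ) : ℂ) *
      Function.Periodic.qParam 1 z ^ n) (Hf l m z) := fun z hz => hHQ l m hl hl5 z hz
  refine ⟨HM_form (4 * (m * (l - 1))) (Hf l m) _ (hHT l m hl hl5) (hHS l m hl hl5)
    (HM_diff l m hl.pos) hq, ?_⟩
  ext n
  have h := ModularFormClass.qExpansion_coeff_unique
    (f := HM_form (4 * (m * (l - 1))) (Hf l m) _ (hHT l m hl hl5) (hHS l m hl hl5)
    (HM_diff l m hl.pos) hq) one_pos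
    one_mem_strictPeriods_SL (fun τ => hq τ τ.im_pos) n
  rw [PowerSeries.coeff_map]
  exact h.symm

end Pool.Agent.EP
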