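import Pool.Agent.helper81.EP.SpecC

/-!
# Project ep: CI
-/

set_option autoImplicit false

namespace Pool.Agent.EP

theorem CI_aux (q : ℕ) (hp : q.Prime) (h2 : (2 : ZMod q) ≠ 0)
    (hq : ∀ x y : ZMod q, x ^ 2 = 3 * y ^ 2 → x = 0) (b w : ℕ) (h : 3 * w ^ 2 < 4 ^ b) :
    Nat.Coprime (4 ^ b - 3 * w ^ 2) q := by
  have := Fact.mk hp
  rw [Nat.coprime_comm, hp.coprime_iff_not_dvd]
  intro hd
  have h1 : ((4 ^ b - 3 * w ^ 2 : ℕ) : ZMod q) = 0 := (ZMod.natCast_eq_zero_iff _ _).2 hd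
  rw [Nat.cast_sub h.le] at h1
  push_cast at h1
  have h3 : ((2 : ZMod q) ^ b) ^ 2 = 3 * (w : ZMod q) ^ 2 := by
    rw [← pow_mul, mul_comm b 2, pow_mul]
    norm_num
    exact sub_eq_zero.1 h1
  exact pow_ne_zero b h2 (hq _ _ h3)

theorem CI : CI_stmt := by
  intro b w r hr h
  have h5 := CI_aux 5 (by norm_num) (by decide) (by decide) b w h
  have h7 := CI_aux 7 (by norm_num) (by decide) (by decide) b w h
  have h17 := CI_aux 17 (by norm_num) (by decide) (by decide) b w h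
  have h19 := CI_aux 19 (by norm_num) (by decide) (by decide) b w h
  have h35 : Nat.Coprime (4 ^ b - 3 * w ^ 2) (5 * 7) := Nat.Coprime.mul_right h5 h7
  have h85 : Nat.Coprime (4 ^ b - 3 * w ^ 2) (5 * 17) := Nat.Coprime.mul_right h5 h17
  have h95 : Nat.Coprime (4 ^ b - 3 * w ^ 2) (5 * 19) := Nat.Coprime.mul_right h5 h19
  simp only [In8, Finset.mem_insert, Finset.mem_singleton] at hr
  rcases hr with rfl | rfl | rfl | rfl | rfl | rfl | rfl | rfl
  · exact Nat.coprime_one_right _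
  · exact h5
  · exact h7
  · exact h17
  · exact h19
  · exact h35
  · exact h85
  · exact h95

end Pool.Agent.EP
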