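import Pool.Agent.helper81.EP.SpecK

/-!
# Project ep: KF, the doubling map on even numbers below `d`
-/

set_option autoImplicit false

namespace Pool.Agent.EP

theorem KF_i (d : ℕ) (hd : d % 2 = 1) (n : ℕ) (hn : n % 2 = 0) :
    dis n (2 * d) < d ∧ dis n (2 * d) % 2 = 0 ∧
    dis (2 * n) (2 * d) = if 2 * dis n (2 * d) < d then 2 * dis n (2 * d)
      else 2 * d - 2 * dis n (2 * d) := by
  have hd0 : 0 < 2 * d := by omega
  obtain ⟨r, k, hr, hnr⟩ : ∃ r k, r < 2 * d ∧ n = 2 * d * k + r :=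
    ⟨n % (2 * d), n / (2 * d), Nat.mod_lt _ hd0, (Nat.div_add_mod n (2 * d)).symm⟩
  have h1 : n % (2 * d) = r := by
    rw [hnr, Nat.mul_add_mod, Nat.mod_eq_of_lt hr]
  have hr2 : r % 2 = 0 := by
    rw [hnr, mul_assoc] at hn
    omega
  have h2 : (2 * n) % (2 * d) = if 2 * r < 2 * d then 2 * r else 2 * r - 2 * d := by
    have e : 2 * n = 2 * d * (2 * k) + 2 * r := by rw [hnr]; ring
    rw [e, Nat.mul_add_mod]
    split_ifs with h
    · exact Nat.mod_eq_of_lt h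
    · rw [Nat.mod_eq_sub_mod (by omega), Nat.mod_eq_of_lt (by omega)]
  unfold dis
  rw [h1, h2]
  refine ⟨?_, ?_, ?_⟩
  · omega
  · omega
  · split_ifs <;> omega

theorem KF_ii (d : ℕ) (hd : d % 2 = 1) (c : ℕ) (x : ℤ) (hc : c % 2 = 0) (h0 : 0 < c)
    (hcd : c < d) (hx : (d : ℤ) ∣ (c : ℤ) - x ∨ (d : ℤ) ∣ (c : ℤ) + x) (c' : ℕ)
    (hc' : c' = if 2 * c < d then 2 * c else 2 * d - 2 * c) :
    c' % 2 = 0 ∧ 0 < c' ∧ c' < d ∧ ((d : ℤ) ∣ (c' : ℤ) - 2 * x ∨ (d : ℤ) ∣ (c' : ℤ) + 2 * x) := by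
  split_ifs at hc' with h
  · subst hc'
    refine ⟨by omega, by omega, h, ?_⟩
    rcases hx with ⟨m, hm⟩ | ⟨m, hm⟩
    · left
      refine ⟨2 * m, ?_⟩
      push_cast
      linear_combination 2 * hm
    · right
      refine ⟨2 * m, ?_⟩
      push_cast
      linear_combination 2 * hm
  · have e : (c' : ℤ) = 2 * d - 2 * c := by omega
    refine ⟨by omega, by omega, by omega, ?_⟩
    rw [e]
    rcases hx with ⟨m, hm⟩ | ⟨m, hm⟩
    · right
      refine ⟨2 - 2 * m, ?_⟩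
      linear_combination -2 * hm
    · left
      refine ⟨2 - 2 * m, ?_⟩
      linear_combination -2 * hm

theorem KF_iv (d : ℕ) (hd : d % 2 = 1) (hd3 : 3 ≤ d) (x : ℤ) (hx : ¬ (d : ℤ) ∣ x) :
    ∃ c : ℕ, c % 2 = 0 ∧ 0 < c ∧ c < d ∧ ((d : ℤ) ∣ (c : ℤ) - x ∨ (d : ℤ) ∣ (c : ℤ) + x) := by
  have hd0 : (0 : ℤ) < d := by omega
  have h1 : 0 ≤ x % d := Int.emod_nonneg _ hd0.ne'
  have h2 : x % d < d := Int.emod_lt_of_pos _ hd0
  have h3 : x % d ≠ 0 := fun h => hx (Int.dvd_of_emod_eq_zero h)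
  have h4 : (d : ℤ) * (x / d) + x % d = x := Int.mul_ediv_add_emod x d
  obtain ⟨r, hr⟩ := Int.eq_ofNat_of_zero_le h1
  rw [hr] at h2 h3 h4
  rcases Nat.mod_two_eq_zero_or_one r with h5 | h5
  · refine ⟨r, h5, by omega, by omega, Or.inl ⟨-(x / d), ?_⟩⟩
    linear_combination h4
  · refine ⟨d - r, by omega, by omega, by omega, Or.inr ⟨1 + x / d, ?_⟩⟩
    have e : ((d - r : ℕ) : ℤ) = d - r := by omega
    rw [e]
    linear_combination -h4

theorem KF : KF_stmt := by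
  intro d hd hd3
  refine ⟨fun n hn => KF_i d hd n hn, fun c x hc h0 hcd hx c' hc' =>
    KF_ii d hd c x hc h0 hcd hx c' hc', ?_, fun x hx => KF_iv d hd hd3 x hx⟩
  intro a c ha hc ha0 hc0 hac
  split_ifs <;> omega

end Pool.Agent.EP
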