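import Pool.Agent.helper99.EP.Spec

/-!
# Row `ep:PW2` of project EP (`MP_bf63dc_nt`)
-/

set_option autoImplicit false

namespace Pool.Agent.EP

open Finset Pool.Agent.helper85.FC Pool.Agent.OM Pool.Agent.helper11.TX Pool.Agent.AT

/-- the set of the `s 2^i`, `s ∈ X`, `i < L` -/
def PW2_F (X : Finset ℕ) (L : ℕ) : Finset ℕ := (X ×ˢ range L).image (fun p => p.1 * 2 ^ p.2)

theorem PW2_key {X : Finset ℕ} {L : ℕ} (hX : ∀ s ∈ X, 1 ≤ s)
    (hXL : ∀ s ∈ X, ∀ t ∈ X, s ≠ t → ∀ k < L, s ≠ 2 ^ k * t) {s t i j : ℕ} (hs : s ∈ X) (ht : t ∈ X)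
    (hij : i ≤ j) (hj : j < L) (h : s * 2 ^ i = t * 2 ^ j) : s = t ∧ i = j := by
  have h1 : s = 2 ^ (j - i) * t := by
    have h2 : 2 ^ j = 2 ^ (j - i) * 2 ^ i := by
      rw [← pow_add]
      congr 1
      omega
    have h3 : s * 2 ^ i = (2 ^ (j - i) * t) * 2 ^ i := by
      rw [h, h2]
      ring
    exact Nat.eq_of_mul_eq_mul_right (by positivity) h3
  have h4 : s = t := by
    by_contra hne
    exact hXL s hs t ht hne (j - i) (by omega) h1
  refine ⟨h4, ?_⟩
  subst h4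
  have h5 : 2 ^ i = 2 ^ j := Nat.eq_of_mul_eq_mul_left (hX s hs) h
  exact Nat.pow_right_injective le_rfl h5

theorem PW2_card {X : Finset ℕ} {L : ℕ} (hX : ∀ s ∈ X, 1 ≤ s)
    (hXL : ∀ s ∈ X, ∀ t ∈ X, s ≠ t → ∀ k < L, s ≠ 2 ^ k * t) : #(PW2_F X L) = #X * L := by
  unfold PW2_F
  rw [card_image_of_injOn, card_product, card_range]
  rintro ⟨s, i⟩ h1 ⟨t, j⟩ h2 h
  simp only [coe_product, coe_range, Set.mem_prod, mem_coe, Set.mem_Iio] at h1 h2
  simp only at h
  rcases le_total i j with hij | hij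
  · obtain ⟨a, b⟩ := PW2_key hX hXL h1.1 h2.1 hij h2.2 h
    rw [a, b]
  · obtain ⟨a, b⟩ := PW2_key hX hXL h2.1 h1.1 hij h1.2 h.symm
    rw [a, b]

theorem PW2_QF {X : Finset ℕ} {L : ℕ} (hX : ∀ s ∈ X, 1 ≤ s) :
    #(QF (PW2_F X L)) ≤ #X * #X * (2 * L - 1) := by
  have h : QF (PW2_F X L) ⊆ ((X ×ˢ X) ×ˢ range (2 * L - 1)).image
      (fun q => ((q.1.1 : ℚ) * 2 ^ q.2) / ((q.1.2 : ℚ) * 2 ^ (L - 1))) := by
    intro x hx
    obtain ⟨⟨a, b⟩, hab, rfl⟩ := mem_image.1 hx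
    obtain ⟨ha, hb⟩ := mem_product.1 hab
    obtain ⟨⟨s, i⟩, hsi, rfl⟩ := mem_image.1 ha
    obtain ⟨⟨t, j⟩, htj, rfl⟩ := mem_image.1 hb
    obtain ⟨hs, hi⟩ := mem_product.1 hsi
    obtain ⟨ht, hj⟩ := mem_product.1 htj
    rw [mem_range] at hi hj
    refine mem_image.2 ⟨((s, t), i + (L - 1) - j), ?_, ?_⟩
    · refine mem_product.2 ⟨mem_product.2 ⟨hs, ht⟩, mem_range.2 ?_⟩
      show i + (L - 1) - j < 2 * L - 1
      simp only at hi hj
      omega
    · simp only at hi hj ⊢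
      have ht1 : (0 : ℚ) < t := by exact_mod_cast hX t ht
      push_cast
      rw [div_eq_div_iff (by positivity) (by positivity)]
      have e : (2 : ℚ) ^ (i + (L - 1) - j) * 2 ^ j = 2 ^ i * 2 ^ (L - 1) := by
        rw [← pow_add, ← pow_add]
        congr 1
        omega
      calc (s : ℚ) * 2 ^ (i + (L - 1) - j) * (t * 2 ^ j) = s * t * (2 ^ (i + (L - 1) - j) * 2 ^ j) := by ring
        _ = s * t * (2 ^ i * 2 ^ (L - 1)) := by rw [e]
        _ = s * 2 ^ i * (t * 2 ^ (L - 1)) := by ring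
  refine (card_le_card h).trans (card_image_le.trans ?_)
  rw [card_product, card_product, card_range]

/-- the count -/
theorem PW2_main {ε η : ℝ} {X : Finset ℕ} {L : ℕ} (hη : ∀ F : Finset ℕ, (∀ s ∈ F, 0 < s) →
    (#(QF F) : ℝ) ≤ η * (#F : ℝ) ^ 2 → ∀ B : Finset (ℕ × ℕ), (∀ p ∈ F ×ˢ F, GQ ε p.1 p.2 → p ∈ B) →
    (1 / 3 - ε) * (#F : ℝ) ^ 2 ≤ #B) (hL : 1 ≤ L) (hLη : 2 * (L : ℝ) - 1 ≤ η * (L : ℝ) ^ 2)
    (hX : ∀ s ∈ X, 1 ≤ s) (hXL : ∀ s ∈ X, ∀ t ∈ X, s ≠ t → ∀ k < L, s ≠ 2 ^ k * t)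
    (B : Finset ((ℕ × ℕ) × (ℕ × ℕ)))
    (hB : ∀ s ∈ X, ∀ t ∈ X, ∀ i < L, ∀ j < L, GQ ε (s * 2 ^ i) (t * 2 ^ j) → ((s, i), (t, j)) ∈ B) :
    (1 / 3 - ε) * ((#X : ℝ) * L) ^ 2 ≤ #B := by
  have hc := PW2_card hX hXL
  have hc' : (#(PW2_F X L) : ℝ) = (#X : ℝ) * L := by
    rw [hc]
    push_cast
    rfl
  have h1 := hη (PW2_F X L) ?_ ?_
    (B.image (fun q => (q.1.1 * 2 ^ q.1.2, q.2.1 * 2 ^ q.2.2))) ?_
  · rw [hc'] at h1
    refine h1.trans ?_
    exact_mod_cast card_image_le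
  · intro s hs
    obtain ⟨⟨a, i⟩, hai, rfl⟩ := mem_image.1 hs
    have ha := hX a (mem_product.1 hai).1
    positivity
  · have h2 : (#(QF (PW2_F X L)) : ℝ) ≤ (#X : ℝ) * #X * (2 * L - 1) := by
      have h3 := PW2_QF (X := X) (L := L) hX
      have h4 : ((#X * #X * (2 * L - 1) : ℕ) : ℝ) = (#X : ℝ) * #X * (2 * L - 1) := by
        rw [Nat.cast_mul, Nat.cast_mul, Nat.cast_sub (by omega)]
        push_cast
        ring
      rw [← h4]
      exact_mod_cast h3
    rw [hc']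
    calc (#(QF (PW2_F X L)) : ℝ) ≤ (#X : ℝ) * #X * (2 * L - 1) := h2
      _ ≤ (#X : ℝ) * #X * (η * (L : ℝ) ^ 2) := mul_le_mul_of_nonneg_left hLη (by positivity)
      _ = η * ((#X : ℝ) * L) ^ 2 := by ring
  · rintro ⟨a, b⟩ hp hg
    obtain ⟨ha, hb⟩ := mem_product.1 hp
    obtain ⟨⟨s, i⟩, hsi, rfl⟩ := mem_image.1 ha
    obtain ⟨⟨t, j⟩, htj, rfl⟩ := mem_image.1 hb
    obtain ⟨hs, hi⟩ := mem_product.1 hsi
    obtain ⟨ht, hj⟩ := mem_product.1 htj
    exact mem_image.2 ⟨((s, i), (t, j)), hB s hs t ht i (mem_range.1 hi) j (mem_range.1 hj) hg, rfl⟩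

theorem PW2 (hGQS : GQS_stmt) : PW2_stmt := by
  intro hO ε hε hε1
  obtain ⟨η, hη0, hη⟩ := hO ε hε
  obtain ⟨hsym, hscal, -⟩ := hGQS
  have hη' : ∀ F : Finset ℕ, (∀ s ∈ F, 0 < s) →
      (#(QF F) : ℝ) ≤ η * (#F : ℝ) ^ 2 → ∀ B : Finset (ℕ × ℕ), (∀ p ∈ F ×ˢ F, GQ ε p.1 p.2 → p ∈ B) →
      (1 / 3 - ε) * (#F : ℝ) ^ 2 ≤ #B := by
    intro F hF hQ B hB
    refine (hη F hF hQ).trans ?_
    refine Nat.cast_le.2 (card_le_card ?_)
    intro p hp
    obtain ⟨h1, h2⟩ := (@mem_filter _ _ (fun _ => Classical.propDecidable _) _ _).1 hp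
    exact hB p h1 h2
  obtain ⟨L₀, hL₀⟩ := exists_nat_gt (2 / η)
  set L : ℕ := L₀ + 4 with hLdef
  have hL4 : 4 ≤ L := by omega
  have hL4' : (4 : ℝ) ≤ L := by exact_mod_cast hL4
  have hLη : 2 * (L : ℝ) - 1 ≤ η * (L : ℝ) ^ 2 := by
    have h1 : 2 / η ≤ L := by
      have : (L₀ : ℝ) ≤ L := by exact_mod_cast (by omega : L₀ ≤ L)
      linarith
    have h2 : 2 ≤ η * L := by
      rw [div_le_iff₀ hη0] at h1
      linarith
    nlinarith
  refine ⟨L, hL4, ?_, ?_⟩
  · -- the first part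
    by_contra hno
    push Not at hno
    have h1 := PW2_main (X := {1}) hη' (by omega) hLη (by simp)
      (by
        intro s hs t ht hne
        rw [mem_singleton] at hs ht
        exact absurd (hs.trans ht.symm) hne)
      ((range L).image (fun i => ((1, i), (1, i)))) ?_
    · have h2 : (#((range L).image (fun i : ℕ => (((1 : ℕ), i), ((1 : ℕ), i)))) : ℝ) ≤ L := by
        have := card_image_le (s := range L) (f := fun i : ℕ => (((1 : ℕ), i), ((1 : ℕ), i)))
        rw [card_range] at this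
        exact_mod_cast this
      have h3 := h1.trans h2
      rw [card_singleton] at h3
      push_cast at h3
      nlinarith
    · intro s hs t ht i hi j hj hg
      rw [mem_singleton] at hs ht
      subst hs ht
      rcases lt_trichotomy i j with hij | hij | hij
      · exfalso
        have e1 : 1 * 2 ^ j = 2 ^ (j - i) * 2 ^ i := by
          rw [one_mul, ← pow_add]
          congr 1
          omega
        have h4 := hsym _ _ _ hg
        rw [e1, hscal _ _ _ _ Nat.one_le_two_pow] at h4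
        exact hno (j - i) (by omega) (by omega) h4
      · subst hij
        exact mem_image.2 ⟨i, mem_range.2 hi, rfl⟩
      · exfalso
        have e1 : 1 * 2 ^ i = 2 ^ (i - j) * 2 ^ j := by
          rw [one_mul, ← pow_add]
          congr 1
          omega
        rw [e1, hscal _ _ _ _ Nat.one_le_two_pow] at hg
        exact hno (i - j) (by omega) (by omega) hg
  · -- the second part
    intro X hX hX4 hXL
    by_contra hno
    push Not at hno
    have h1 := PW2_main (X := X) hη' (by omega) hLη hX hXL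
      ((X ×ˢ (range L ×ˢ range L)).image (fun q => ((q.1, q.2.1), (q.1, q.2.2)))) ?_
    · have h2 : (#((X ×ˢ (range L ×ˢ range L)).image
          (fun q : ℕ × ℕ × ℕ => ((q.1, q.2.1), (q.1, q.2.2)))) : ℝ) ≤ 4 * (L * L) := by
        have := card_image_le (s := X ×ˢ (range L ×ˢ range L))
          (f := fun q : ℕ × ℕ × ℕ => ((q.1, q.2.1), (q.1, q.2.2)))
        rw [card_product, card_product, card_range, hX4] at this
        exact_mod_cast this
      have h3 := h1.trans h2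
      rw [hX4] at h3
      push_cast at h3
      nlinarith
    · intro s hs t ht i hi j hj hg
      by_cases hst : s = t
      · subst hst
        exact mem_image.2 ⟨(s, (i, j)), mem_product.2 ⟨hs, mem_product.2 ⟨mem_range.2 hi, mem_range.2 hj⟩⟩, rfl⟩
      · exfalso
        rcases le_total i j with hij | hij
        · have e1 : t * 2 ^ j = 2 ^ (j - i) * t * 2 ^ i := by
            have : 2 ^ j = 2 ^ (j - i) * 2 ^ i := by
              rw [← pow_add]
              congr 1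
              omega
            rw [this]
            ring
          rw [e1, hscal _ _ _ _ Nat.one_le_two_pow] at hg
          exact (hno s hs t ht hst (j - i) (by omega)).2 hg
        · have e1 : s * 2 ^ i = 2 ^ (i - j) * s * 2 ^ j := by
            have : 2 ^ i = 2 ^ (i - j) * 2 ^ j := by
              rw [← pow_add]
              congr 1
              omega
            rw [this]
            ring
          rw [e1, hscal _ _ _ _ Nat.one_le_two_pow] at hg
          exact (hno s hs t ht hst (i - j) (by omega)).1 hg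

end Pool.Agent.EP
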